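import Mathlib

/-!
A subgroup of bounded index which acts trivially on the `p`-torsion of a quotient.
-/

namespace Pool.Agent.Helper30.TmN

theorem index_le {P G : Type} [CommGroup P] [Group G] [Finite G] (P0 : Subgroup P)
    (act : G → P →* P) (act_one : ∀ x, act 1 x = x)
    (act_mul : ∀ g g' x, act (g * g') x = act g (act g' x)) (act_P0 : ∀ g, ∀ x ∈ P0, act g x ∈ P0)
    (p r : ℕ) (ι : Type) [Finite ι] (hι : Nat.card ι ≤ r) (f : P → ι)
    (hf : ∀ x y, x ^ p ∈ P0 → y ^ p ∈ P0 → f x = f y → x⁻¹ * y ∈ P0) :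
    ∃ H : Subgroup G, H.index ≤ r.factorial ∧
      ∀ g ∈ H, ∀ x, x ^ p ∈ P0 → act g x / x ∈ P0 := by
  classical
  let V := {c : P ⧸ P0 // c ^ p = 1}
  let A : G → (P ⧸ P0) →* (P ⧸ P0) := fun g =>
    QuotientGroup.map P0 P0 (act g) (fun x hx => act_P0 g x hx)
  have hA : ∀ g x, A g (QuotientGroup.mk x) = QuotientGroup.mk (act g x) := fun g x => rfl
  have hrep : ∀ v : V, ∃ x : P, (QuotientGroup.mk x : P ⧸ P0) = v.1 ∧ x ^ p ∈ P0 := by
    rintro ⟨c, hc⟩
    obtain ⟨x, rfl⟩ := QuotientGroup.mk_surjective c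
    refine ⟨x, rfl, ?_⟩
    rw [← QuotientGroup.mk_pow, QuotientGroup.eq_one_iff] at hc
    exact hc
  choose rep hrep1 hrep2 using hrep
  have hinj : Function.Injective fun v : V => f (rep v) := by
    intro v w hvw
    have h1 := hf _ _ (hrep2 v) (hrep2 w) hvw
    apply Subtype.ext
    rw [← hrep1 v, ← hrep1 w]
    exact QuotientGroup.eq.2 h1
  have hfin : Finite V := Finite.of_injective _ hinj
  have hcard : Nat.card V ≤ r := (Nat.card_le_card_of_injective _ hinj).trans hι
  let inst : MulAction G V :=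
    { smul := fun g v => ⟨A g v.1, by rw [← map_pow, v.2, map_one]⟩
      one_smul := by
        rintro ⟨c, hc⟩
        apply Subtype.ext
        obtain ⟨x, rfl⟩ := QuotientGroup.mk_surjective c
        change A 1 (QuotientGroup.mk x) = QuotientGroup.mk x
        rw [hA, act_one]
      mul_smul := by
        rintro g g' ⟨c, hc⟩
        apply Subtype.ext
        obtain ⟨x, rfl⟩ := QuotientGroup.mk_surjective c
        change A (g * g') (QuotientGroup.mk x) = A g (A g' (QuotientGroup.mk x))
        rw [hA, hA, hA, act_mul] }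
  refine ⟨(MulAction.toPermHom G V).ker, ?_, ?_⟩
  · rw [Subgroup.index_ker]
    have h1 : Nat.card (MulAction.toPermHom G V).range ≤ Nat.card (Equiv.Perm V) :=
      Nat.card_le_card_of_injective _ Subtype.val_injective
    rw [Nat.card_perm] at h1
    exact h1.trans (Nat.factorial_le hcard)
  · intro g hg x hx
    have h1 : (QuotientGroup.mk x : P ⧸ P0) ^ p = 1 := by
      rw [← QuotientGroup.mk_pow, QuotientGroup.eq_one_iff]
      exact hx
    have h2 : MulAction.toPermHom G V g = 1 := hg
    have h3 := congrArg Subtype.val (Equiv.congr_fun h2 ⟨QuotientGroup.mk x, h1⟩)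
    change A g (QuotientGroup.mk x) = QuotientGroup.mk x at h3
    rw [hA] at h3
    have h4 := QuotientGroup.eq.1 h3.symm
    rw [div_eq_inv_mul]
    exact h4

/-- The average over a subgroup. -/
theorem exists_avg {P G : Type} [CommGroup P] [Group G] [Finite G] (P0 : Subgroup P)
    (act : G → P →* P) (act_mul : ∀ g g' x, act (g * g') x = act g (act g' x))
    (H : Subgroup G) (x : P) (hx : ∀ g ∈ H, act g x / x ∈ P0) :
    ∃ Z : P, Z / x ^ Nat.card H ∈ P0 ∧ ∀ g ∈ H, act g Z = Z := by
  classical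
  have _ := Fintype.ofFinite G
  refine ⟨∏ h : H, act h x, ?_, ?_⟩
  · have h1 : (∏ h : H, act h x) / x ^ Nat.card H = ∏ h : H, (act h x / x) := by
      rw [Finset.prod_div_distrib, Finset.prod_const, Finset.card_univ, Nat.card_eq_fintype_card]
    rw [h1]
    exact Subgroup.prod_mem _ fun h _ => hx h h.2
  · intro g hg
    rw [map_prod]
    refine Fintype.prod_equiv (Equiv.mulLeft (⟨g, hg⟩ : H)) _ _ fun h => ?_
    rw [← act_mul]
    rfl

end Pool.Agent.Helper30.TmN
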