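import Pool.Agent.Helper30.TmN.Core
import Pool.Agent.Helper30.TmN.Act

/-!
All points of `X` over `M`: averaging over the group which acts trivially on the `p`-part of the
group of components.
-/

open CategoryTheory AlgebraicGeometry Limits TensorProduct MonoidalCategory
open scoped Obj

namespace Pool.Agent.Helper30.TmN

open Pool.Agent.Helper40.Nm (specOver homGroup specialFibre)
open Pool.Agent.Helper50.Tm

section field

variable {K N : Type} [Field K] [Field N] [Algebra K N] [FiniteDimensional K N]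

/-- A subgroup of index at most `n` of the Galois group of `M / K` contains the restrictions of
the automorphisms which fix `L`, if `L` contains the subfields of `M` of degree at most `n`. -/
theorem restrict_mem (L M : IntermediateField K N) [IsGalois K M] (n : ℕ)
    (hLK : ∀ K' : IntermediateField K N, K' ≤ M → Module.finrank K K' ≤ n → K' ≤ L)
    (H : Subgroup (M ≃ₐ[K] M)) (hH : H.index ≤ n) (σ : N ≃ₐ[K] N)
    (hσ : σ ∈ L.fixingSubgroup) : AlgEquiv.restrictNormalHom M σ ∈ H := by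
  let E : IntermediateField K M := IntermediateField.fixedField H
  have h1 : Module.finrank K E = H.index := by
    have h2 := Module.finrank_mul_finrank K E M
    have h3 : Module.finrank E M = Nat.card H := IntermediateField.finrank_fixedField_eq_card H
    have h4 := IsGalois.card_aut_eq_finrank K M
    have h5 := H.index_mul_card
    rw [h3, ← h4, ← h5] at h2
    exact Nat.eq_of_mul_eq_mul_right Nat.card_pos h2
  have h6 : IntermediateField.lift E ≤ L := by
    refine hLK _ (IntermediateField.lift_le E) ?_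
    rw [← (IntermediateField.liftAlgEquiv E).toLinearEquiv.finrank_eq, h1]
    exact hH
  rw [← IntermediateField.fixingSubgroup_fixedField H, IntermediateField.mem_fixingSubgroup_iff]
  intro y hy
  apply Subtype.val_injective
  have h7 : ((AlgEquiv.restrictNormalHom M σ y : M) : N) = σ (y : N) :=
    AlgEquiv.restrictNormal_commutes σ M y
  refine h7.trans ?_
  rw [IntermediateField.mem_fixingSubgroup_iff] at hσ
  exact hσ _ (h6 ((IntermediateField.mem_lift y).2 hy))

end field

section core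

variable {K N : Type} [Field K] [Field N] [Algebra K N] [FiniteDimensional K N] [IsGalois K N]
  {L M : IntermediateField K N}
  {RL RM RN : Type}
  [CommRing RL] [IsDomain RL] [IsDiscreteValuationRing RL] [Algebra RL L]
  [CommRing RM] [IsDomain RM] [IsDiscreteValuationRing RM] [Algebra RM M]
  [CommRing RN] [IsDomain RN] [IsDiscreteValuationRing RN] [Algebra RN N]
  [Algebra RL RN] [Algebra RM RN] [Algebra RL N] [Algebra RM N]
  [IsScalarTower RL L N] [IsScalarTower RL RN N] [IsScalarTower RM M N] [IsScalarTower RM RN N]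
  {X : Over (Spec (CommRingCat.of K))} [GrpObj X] [IsCommMonObj X]

/-- all points of `X` over `M` -/
theorem core_g [IsGalois K M] (hCO : COMPG) (hRE : REDS) (hTX : TREX) (hTR1 : TR1) (hTR2 : TR2)
    (hGC : GALC) (hBR : BASER) (hBC : BASEC)
    [IsAdicComplete (IsLocalRing.maximalIdeal RL) RL] [IsAlgClosed (IsLocalRing.ResidueField RL)]
    [IsAdicComplete (IsLocalRing.maximalIdeal RM) RM] [IsAlgClosed (IsLocalRing.ResidueField RM)]
    [IsAdicComplete (IsLocalRing.maximalIdeal RN) RN] [IsAlgClosed (IsLocalRing.ResidueField RN)]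
    [Module.Finite RL RN] [Module.Free RL RN] [IsLocalHom (algebraMap RL RN)]
    [Module.Finite RM RN] [Module.Free RM RN] [IsLocalHom (algebraMap RM RN)]
    (𝒢L : NeronModel K RL L X) (𝒢M : NeronModel K RM M X) (𝒢N : NeronModel K RN N X)
    (hresL : ∀ s : RN, ∃ r : RL, s - algebraMap RL RN r ∈ IsLocalRing.maximalIdeal RN)
    (hnilL : ∃ n : ℕ, IsLocalRing.maximalIdeal RN ^ n ≤
      (IsLocalRing.maximalIdeal RL).map (algebraMap RL RN))
    (hresM : ∀ s : RN, ∃ r : RM, s - algebraMap RM RN r ∈ IsLocalRing.maximalIdeal RN)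
    (hnilM : ∃ n : ℕ, IsLocalRing.maximalIdeal RN ^ n ≤
      (IsLocalRing.maximalIdeal RM).map (algebraMap RM RN))
    (hle : (IsLocalRing.maximalIdeal RL).map (algebraMap RL RN) ≤
      (IsLocalRing.maximalIdeal RM).map (algebraMap RM RN))
    (hgalM : ∀ σ : M ≃ₐ[K] M, ∃ τ : RM ≃+* RM,
      ∀ s, algebraMap RM M (τ s) = σ (algebraMap RM M s))
    (p a i m : ℕ) (hp : p.Prime) (he : Module.finrank M N = p ^ a * m) (hm : p.Coprime m)
    (htame : p.Coprime (Module.finrank K M))
    (hD : ∀ b : Pts 𝒢L.G (IsLocalRing.ResidueField RL), SameCompk 1 b →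
      ∃ b' : Pts 𝒢L.G (IsLocalRing.ResidueField RL), SameCompk 1 b' ∧ b' ^ p = b)
    (hC : ∀ b : Pts 𝒢L.G (IsLocalRing.ResidueField RL), SameCompk 1 (b ^ p ^ (i + 1)) →
      SameCompk 1 (b ^ p ^ i))
    (r : ℕ) (hLK : ∀ K' : IntermediateField K N, K' ≤ M →
      Module.finrank K K' ≤ r.factorial → K' ≤ L)
    (F : Finset (Pts 𝒢M.G (IsLocalRing.ResidueField RM))) (hF : F.card ≤ r)
    (hR : ∀ z : Pts 𝒢M.G (IsLocalRing.ResidueField RM), SameCompk 1 (z ^ p) →
      ∃ b ∈ F, SameCompk b z)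
    (j : ℕ) (haj : a + i ≤ j) (x : Pts X M) (hx : x ^ p ^ j ∈ P0 hCO 𝒢M) :
    ∃ x', x / x' ∈ P0 hCO 𝒢M ∧ x' ^ p ^ (a + i) ∈ P1 𝒢M := by
  classical
  obtain ⟨act, hact⟩ : ∃ act : (M ≃ₐ[K] M) → Pts X M →* Pts X M,
    act = fun (σ : M ≃ₐ[K] M) => Pts.mapHom (σ : M →ₐ[K] M) := ⟨_, rfl⟩
  have act_apply : ∀ σ z, act σ z = z.map (σ : M →ₐ[K] M) := by
    intro σ z
    rw [hact]
    rfl
  have act_one : ∀ z, act 1 z = z := by
    intro z
    rw [act_apply]
    exact Pts.map_id z
  have act_mul : ∀ c c' z, act (c * c') z = act c (act c' z) := by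
    intro c c' z
    rw [act_apply, act_apply, act_apply]
    exact Pts.map_comp (c' : M →ₐ[K] M) (c : M →ₐ[K] M) z
  have act_P0 : ∀ σ, ∀ z ∈ P0 hCO 𝒢M, act σ z ∈ P0 hCO 𝒢M := by
    intro σ z hz
    obtain ⟨τ, hτ⟩ := hgalM σ
    rw [act_apply]
    exact hGC K RM M X 𝒢M σ τ hτ z hz
  -- the components of order dividing `p`
  have hR' : ∀ z : Pts X M, ∃ b : F, z ^ p ∈ P0 hCO 𝒢M → SameCompk b.1 (redk (sec 𝒢M z)) := by
    intro z
    by_cases hz : z ^ p ∈ P0 hCO 𝒢M
    · rw [mem_P0_iff hCO hRE, redk_pow] at hz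
      obtain ⟨b, hb, h1⟩ := hR _ hz
      exact ⟨⟨b, hb⟩, fun _ => h1⟩
    · obtain ⟨b, hb, -⟩ := hR 1 (by
        rw [one_pow]
        have h2 := ((hRE RM 𝒢M.G 𝒢M.smooth).2.1 1 1).1 (SameComp.refl _)
        rwa [show redk (1 : Pts 𝒢M.G RM) = 1 from map_one (redHom 𝒢M.G)] at h2)
      exact ⟨⟨b, hb⟩, fun h => absurd h hz⟩
  choose f hf using hR'
  obtain ⟨H, hH1, hH2⟩ := index_le (P0 hCO 𝒢M) act act_one act_mul act_P0 p r F
    (by rw [Nat.card_eq_fintype_card, Fintype.card_coe]; exact hF) f (by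
      intro y z hy hz hyz
      have h1 := hf y hy
      have h2 := hf z hz
      rw [← hyz] at h2
      -- both reductions lie in the component of `f y`
      have h3 : SameCompk (redk (sec 𝒢M y)) (redk (sec 𝒢M z)) := by
        unfold SameCompk at *
        rw [← connectedComponentIn_eq h1]
        exact h2
      have h4 : SameComp (sec 𝒢M y) (sec 𝒢M z) := ((hRE RM 𝒢M.G 𝒢M.smooth).2.1 _ _).2 h3
      rw [mem_P0, map_mul, map_inv]
      have := hCO RM 𝒢M.G (sec 𝒢M y)⁻¹ (sec 𝒢M y)⁻¹ (sec 𝒢M y) (sec 𝒢M z) (SameComp.refl _) h4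
      rwa [inv_mul_cancel] at this)
  have hH3 : ∀ g ∈ H, act g x / x ∈ P0 hCO 𝒢M := by
    intro g hg
    refine triv_of_triv (P0 hCO 𝒢M) (act g) (act_P0 g) p (Nat.card (M ≃ₐ[K] M)) ?_ ?_ (hH2 g hg)
      j x hx
    · rw [IsGalois.card_aut_eq_finrank]
      exact htame.symm
    · intro y
      have h1 : ∀ n : ℕ, (act g)^[n] y = act (g ^ n) y := by
        intro n
        induction n with
        | zero => rw [pow_zero, act_one]; rfl
        | succ n ih => rw [Function.iterate_succ_apply', ih, pow_succ', act_mul]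
      rw [h1, pow_card_eq_one', act_one]
  obtain ⟨Z, hZ1, hZ2⟩ := exists_avg (P0 hCO 𝒢M) act act_mul H x hH3
  refine grp_avg (P0 hCO 𝒢M) (P1 𝒢M) p (a + i) j (Nat.card H) ?_ x Z hx hZ1 ?_
  · have h1 : p.Coprime (Nat.card (M ≃ₐ[K] M)) := by
      rw [IsGalois.card_aut_eq_finrank]
      exact htame
    exact (h1.coprime_dvd_right (Subgroup.card_subgroup_dvd_card H)).symm
  have hZ3 : Z ^ p ^ j ∈ P0 hCO 𝒢M := by
    have h1 : Z ^ p ^ j = (Z / x ^ Nat.card H) ^ p ^ j * (x ^ p ^ j) ^ Nat.card H := by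
      rw [div_pow, ← pow_mul, ← pow_mul, mul_comm (Nat.card H), div_mul_cancel]
    rw [h1]
    exact Subgroup.mul_mem _ (Subgroup.pow_mem _ hZ1 _) (Subgroup.pow_mem _ hx _)
  refine core_L hCO hRE hTX hTR1 hTR2 hBR hBC 𝒢L 𝒢M 𝒢N hresL hnilL hresM hnilM hle p a i m hp he hm
    hD hC j haj Z hZ3 ?_
  refine exists_of_fixed hTX L _ fun σ hσ => ?_
  have h5 : (Z.map (IsScalarTower.toAlgHom K M N)).map (σ : N →ₐ[K] N) =
      (act (AlgEquiv.restrictNormalHom M σ) Z).map (IsScalarTower.toAlgHom K M N) := by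
    rw [act_apply, ← Pts.map_comp, ← Pts.map_comp]
    congr 1
    ext z
    exact (AlgEquiv.restrictNormal_commutes σ M z).symm
  rw [h5, hZ2 _ (restrict_mem L M r.factorial hLK H hH1 σ hσ)]

end core

end Pool.Agent.Helper30.TmN
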