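import Pool.Agent.Helper50.Tm.All
import Pool.Agent.Helper37.Tm.GALC
import Pool.Agent.Helper30.TmN.Core2

/-!
The assembly (MP_f619a5_ag): components of large `p`-power order, and split reduction if the
ramification index is divisible by `p` at most once.
-/

open CategoryTheory AlgebraicGeometry Limits TensorProduct MonoidalCategory
open scoped Obj

namespace Pool.Agent.Helper30.TmN

open Pool.Agent.Helper40.Nm (specOver homGroup specialFibre)
open Pool.Agent.Helper50.Tm

section comp

variable {R : Type} [CommRing R] [IsLocalRing R] {G : Over (Spec (CommRingCat.of R))}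

theorem kpt_mem (z : Pts G (IsLocalRing.ResidueField R)) :
    z.left (IsLocalRing.closedPoint (IsLocalRing.ResidueField R)) ∈ specialFibre G := by
  have h3 : (z.left ≫ G.hom) (IsLocalRing.closedPoint (IsLocalRing.ResidueField R)) =
      IsLocalRing.closedPoint R := by
    rw [Over.w z]
    change PrimeSpectrum.comap (IsLocalRing.residue R) _ = _
    apply PrimeSpectrum.ext
    simp [IsLocalRing.closedPoint]
  exact h3

theorem SameCompk.refl (z : Pts G (IsLocalRing.ResidueField R)) : SameCompk z z :=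
  mem_connectedComponentIn (kpt_mem z)

theorem SameCompk.symm {z z' : Pts G (IsLocalRing.ResidueField R)} (h : SameCompk z z') :
    SameCompk z' z := by
  unfold SameCompk at *
  rw [← connectedComponentIn_eq h]
  exact mem_connectedComponentIn (kpt_mem z)

end comp

/-- The final form. -/
theorem main (O K N : Type) [CommRing O] [IsDomain O] [IsDiscreteValuationRing O]
    [IsAdicComplete (IsLocalRing.maximalIdeal O) O] [IsAlgClosed (IsLocalRing.ResidueField O)]
    [Field K] [Algebra O K] [IsFractionRing O K]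
    [Field N] [Algebra K N] [Algebra O N] [IsScalarTower O K N]
    [FiniteDimensional K N] [IsGalois K N] (L M : IntermediateField K N) [IsGalois K M]
    (RL RM RN : Type)
    [CommRing RL] [IsDomain RL] [IsDiscreteValuationRing RL] [Algebra O RL] [Algebra RL L]
    [IsScalarTower O RL L] [IsIntegralClosure RL O L]
    [CommRing RM] [IsDomain RM] [IsDiscreteValuationRing RM] [Algebra O RM] [Algebra RM M]
    [IsScalarTower O RM M] [IsIntegralClosure RM O M]
    [CommRing RN] [IsDomain RN] [IsDiscreteValuationRing RN] [Algebra O RN] [Algebra RN N]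
    [IsScalarTower O RN N] [IsIntegralClosure RN O N]
    (X : Over (Spec (CommRingCat.of K))) [GrpObj X] [IsCommMonObj X]
    (𝒢L : NeronModel K RL L X) (𝒢M : NeronModel K RM M X) (𝒢N : NeronModel K RN N X)
    (p r i : ℕ) (hp : ringExpChar (IsLocalRing.ResidueField O) = p)
    (htame : p.Coprime (Module.finrank K M))
    (hdeg : Module.finrank K L ≤ Module.finrank K M)
    (hsub : ∀ K' : IntermediateField K N, K' ≤ M → Module.finrank K K' ≤ r.factorial → K' ≤ L)
    (hD : ∀ b : Pts 𝒢L.G (IsLocalRing.ResidueField RL), SameCompk 1 b →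
      ∃ b' : Pts 𝒢L.G (IsLocalRing.ResidueField RL), SameCompk 1 b' ∧ b' ^ p = b)
    (hC : ∀ b : Pts 𝒢L.G (IsLocalRing.ResidueField RL), SameCompk 1 (b ^ p ^ (i + 1)) →
      SameCompk 1 (b ^ p ^ i))
    (hR : ∃ F : Finset (Pts 𝒢M.G (IsLocalRing.ResidueField RM)), F.card ≤ r ∧
      ∀ z : Pts 𝒢M.G (IsLocalRing.ResidueField RM), SameCompk 1 (z ^ p) →
        ∃ b ∈ F, SameCompk b z) :
    (∀ (j : ℕ) (z : Pts 𝒢M.G (IsLocalRing.ResidueField RM)), SameCompk 1 (z ^ p ^ j) →
      ∃ z' : Pts 𝒢M.G (IsLocalRing.ResidueField RM),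
        SameCompk z z' ∧ z' ^ p ^ (padicValNat p (Module.finrank K N) + i) = 1) ∧
    ((∀ z : Pts 𝒢M.G (IsLocalRing.ResidueField RM), SameCompk 1 (z ^ p) →
        ∃ y : Pts 𝒢M.G (IsLocalRing.ResidueField RM),
          SameCompk z (y ^ p ^ (padicValNat p (Module.finrank K N) + i - 1))) →
      FGComponents 𝒢M.G → SplitReduction 𝒢M.G) := by
  have hGC : GALC := Helper37.Tm.gGALC
  have hDESC : DESC := gDESC'
  have hSTK : STK := Helper30.Tm.gSTK Helper28.Tm.gKRU (Helper77.Tm.gDUAL Helper24.Tm.gEHP)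
  have hCHART : CHART := Helper45.Tm.gCHART
  have hTX : TREX := Helper24.Tm.gTREX hDESC
  have hNORM : NORM := Helper76.Tm.gNORM (Helper30.Tm.gNORMP hDESC)
  have hCO : COMPG := Helper69.Tm.gCOMPG
  have hRE : REDS := Helper37.Tm.gREDS
  have hFI : FINS := Helper24.Tm.gFINS Helper37.Tm.gREDS
  have hDV : DIVL := Helper9.Tm.gDIVL Helper3.Tm.gNBH Helper83.Tm.gLOC Helper69.Tm.gCOMPG
    Helper37.Tm.gREDS hSTK gOPN'
  have hTR1 : TR1 := Helper42.Tm.gTR1 Helper3.Tm.gNBH Helper83.Tm.gLOC Helper69.Tm.gCOMPG hCHART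
    Helper87.Tm.gWEILE Helper4.Tm.gWEILS (Helper70.Tm.gCONN Helper15.Tm.gLINE) hTX hNORM
  have hTR2 : TR2 := Helper49.Tm.gTR2 hCHART Helper87.Tm.gWEILE Helper4.Tm.gWEILS hTX hNORM
  have hBR : BASER := Helper7.Tm.gBASER Helper98.Tm.gBASE
  have hBC : BASEC := Helper14.Tm.gBASEC Helper98.Tm.gBASE
  have hE : Helper40.Nm.EXT := Helper40.Nm.extT
  have : IsScalarTower O L N := IsScalarTower.of_algebraMap_eq fun _ => rfl
  have : IsScalarTower O M N := IsScalarTower.of_algebraMap_eq fun _ => rfl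
  obtain ⟨hfrL, -, -, hdL, hcplL, hacL, -, -, -⟩ := hE O K RL L
  obtain ⟨hfrM, -, -, hdM, hcplM, hacM, hlhM, -, -⟩ := hE O K RM M
  obtain ⟨hfrN, -, -, hdN, hcplN, hacN, -, -, -⟩ := hE O K RN N
  let _ : Algebra RL N := ((algebraMap L N).comp (algebraMap RL L)).toAlgebra
  let _ : Algebra RM N := ((algebraMap M N).comp (algebraMap RM M)).toAlgebra
  have : IsScalarTower RL L N := IsScalarTower.of_algebraMap_eq' rfl
  have : IsScalarTower RM M N := IsScalarTower.of_algebraMap_eq' rfl
  have : IsScalarTower O RL N := by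
    refine IsScalarTower.of_algebraMap_eq fun x => ?_
    rw [IsScalarTower.algebraMap_apply RL L N, ← IsScalarTower.algebraMap_apply O RL L,
      ← IsScalarTower.algebraMap_apply O L N]
  have : IsScalarTower O RM N := by
    refine IsScalarTower.of_algebraMap_eq fun x => ?_
    rw [IsScalarTower.algebraMap_apply RM M N, ← IsScalarTower.algebraMap_apply O RM M,
      ← IsScalarTower.algebraMap_apply O M N]
  have : Algebra.IsIntegral O RL := IsIntegralClosure.isIntegral_algebra O L
  have : Algebra.IsIntegral O RM := IsIntegralClosure.isIntegral_algebra O M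
  let fL : RL →ₐ[O] RN := IsIntegralClosure.lift O RN N
  let fM : RM →ₐ[O] RN := IsIntegralClosure.lift O RN N
  let _ : Algebra RL RN := fL.toRingHom.toAlgebra
  let _ : Algebra RM RN := fM.toRingHom.toAlgebra
  have : IsScalarTower RL RN N := IsScalarTower.of_algebraMap_eq fun x =>
    (IsIntegralClosure.algebraMap_lift O RN N x).symm
  have : IsScalarTower RM RN N := IsScalarTower.of_algebraMap_eq fun x =>
    (IsIntegralClosure.algebraMap_lift O RN N x).symm
  have : IsIntegralClosure RN RL N := IsIntegralClosure.tower_top (R := O)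
  have : IsIntegralClosure RN RM N := IsIntegralClosure.tower_top (R := O)
  obtain ⟨-, hfinL, hfreeL, hd1, -, -, hlhL, hresL, hramL⟩ := hE RL L RN N
  obtain ⟨-, hfin, hfree, hd2, -, -, hlh, hres, hramM⟩ := hE RM M RN N
  have hle : (IsLocalRing.maximalIdeal RL).map (algebraMap RL RN) ≤
      (IsLocalRing.maximalIdeal RM).map (algebraMap RM RN) := by
    rw [hramL, hramM]
    apply Ideal.pow_le_pow_right
    have h1 := Module.finrank_mul_finrank K L N
    have h2 := Module.finrank_mul_finrank K M N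
    have h3 : 0 < Module.finrank K M := Module.finrank_pos
    rw [← h1] at h2
    by_contra hlt
    push Not at hlt
    have h4 : Module.finrank K L * Module.finrank L N < Module.finrank K M * Module.finrank M N :=
      calc Module.finrank K L * Module.finrank L N ≤ Module.finrank K M * Module.finrank L N :=
            Nat.mul_le_mul_right _ hdeg
        _ < _ := Nat.mul_lt_mul_of_pos_left hlt h3
    omega
  obtain ⟨F, hF1, hF2⟩ := hR
  obtain ⟨a, ha⟩ : ∃ a, a = padicValNat p (Module.finrank K N) := ⟨_, rfl⟩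
  rw [← ha]
  -- two points in the same component
  have hdiv : ∀ x y : Pts X M, x / y ∈ P0 hCO 𝒢M ↔
      SameCompk (redk (sec 𝒢M x)) (redk (sec 𝒢M y)) := by
    intro x y
    rw [← (hRE RM 𝒢M.G 𝒢M.smooth).2.1, mem_P0]
    constructor
    · intro h1
      have h3 := hCO RM 𝒢M.G 1 _ (sec 𝒢M y) (sec 𝒢M y) h1 (SameComp.refl _)
      rw [one_mul, ← map_mul, div_mul_cancel] at h3
      exact h3.symm
    · intro h1
      have h3 := hCO RM 𝒢M.G (sec 𝒢M y) (sec 𝒢M x) (sec 𝒢M y)⁻¹ (sec 𝒢M y)⁻¹ h1.symm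
        (SameComp.refl _)
      rw [mul_inv_cancel, ← map_inv, ← map_mul, ← div_eq_mul_inv] at h3
      exact h3
  -- the statement on points
  have key : ∀ (hpp : p.Prime) (j : ℕ) (x : Pts X M), x ^ p ^ j ∈ P0 hCO 𝒢M →
        ∃ x', x / x' ∈ P0 hCO 𝒢M ∧ x' ^ p ^ (a + i) ∈ P1 𝒢M := by
    intro hpp j x hx
    have hfact : Fact p.Prime := ⟨hpp⟩
    have hMN0 : Module.finrank M N ≠ 0 := Module.finrank_pos.ne'
    obtain ⟨b, m, hm, he⟩ := Nat.exists_eq_pow_mul_and_not_dvd hMN0 p hpp.ne_one
    have hba : b ≤ a := by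
      rw [ha]
      have hKN0 : Module.finrank K N ≠ 0 := Module.finrank_pos.ne'
      rw [← padicValNat_dvd_iff_le hKN0, ← Module.finrank_mul_finrank K M N, he]
      exact ⟨Module.finrank K M * m, by ring⟩
    obtain ⟨x', h1, h2⟩ := core_g hCO hRE hTX hTR1 hTR2 hGC hBR hBC 𝒢L 𝒢M 𝒢N hresL
      ⟨_, hramL.ge⟩ hres ⟨_, hramM.ge⟩ hle (fun σ => ⟨(galRestrict O K M RM σ).toRingEquiv,
        fun s => algebraMap_galRestrict_apply O σ s⟩) p b i m hpp he
      ((Nat.Prime.coprime_iff_not_dvd hpp).2 hm) htame hD hC r hsub F hF1 hF2 (b + i + j)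
      (Nat.le_add_right _ j) x (by
        rw [pow_add, mul_comm, pow_mul]
        exact Subgroup.pow_mem _ hx _)
    refine ⟨x', h1, ?_⟩
    obtain ⟨c, hc⟩ := Nat.exists_eq_add_of_le (Nat.add_le_add_right hba i)
    rw [hc, pow_add, pow_mul]
    exact Subgroup.pow_mem _ h2 _
  refine ⟨?_, ?_⟩
  · intro j z hz
    by_cases hpp : p.Prime
    · obtain ⟨s, hs⟩ := (hRE RM 𝒢M.G 𝒢M.smooth).1 z
      have hx : ((sec 𝒢M).symm s) ^ p ^ j ∈ P0 hCO 𝒢M := by
        rw [mem_P0_iff hCO hRE, redk_pow, MulEquiv.apply_symm_apply, hs]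
        exact hz
      obtain ⟨x', h1, h2⟩ := key hpp j _ hx
      refine ⟨redk (sec 𝒢M x'), ?_, ?_⟩
      · rw [hdiv, MulEquiv.apply_symm_apply, hs] at h1
        exact h1
      · rw [← redk_pow]
        exact h2
    · have hp1 : p = 1 := by
        rw [← hp]
        rcases ExpChar.exists (IsLocalRing.ResidueField O) with ⟨q, hq⟩
        have h1 : ringExpChar (IsLocalRing.ResidueField O) = q := ringExpChar.eq _ q
        rw [h1]
        rcases hq with _ | hq'
        · rfl
        · exact absurd (by rw [← hp, h1]; exact hq') hpp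
      subst hp1
      refine ⟨1, ?_, one_pow _⟩
      rw [one_pow, pow_one] at hz
      exact Helper30.TmN.SameCompk.symm hz
  · intro hfree hFG
    refine core_split hCO hRE hFI hDV Helper45.Nm.fga 𝒢M hFG ?_
    intro l j x hl h0 hx
    have hlq : p = l := by
      rw [← hp]
      have h1 : (l : IsLocalRing.ResidueField O) = 0 := by
        apply (IsLocalRing.ResidueField.map (algebraMap O RM)).injective
        rw [map_natCast, map_zero]
        exact h0
      have : CharP (IsLocalRing.ResidueField O) l := (CharP.charP_iff_prime_eq_zero hl).2 h1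
      have _ : Fact l.Prime := ⟨hl⟩
      exact ringExpChar.eq _ _
    subst hlq
    refine grp_free (P0 hCO 𝒢M) (P1 𝒢M) p (a + i) (key hl) ?_ j x hx
    intro y hy
    rw [mem_P0_iff hCO hRE, redk_pow] at hy
    obtain ⟨w, hw⟩ := hfree _ hy
    obtain ⟨s, hs⟩ := (hRE RM 𝒢M.G 𝒢M.smooth).1 w
    refine ⟨(sec 𝒢M).symm s, ?_⟩
    rw [hdiv, redk_pow, MulEquiv.apply_symm_apply, hs]
    exact hw

end Pool.Agent.Helper30.TmN
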