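import Mathlib

/-!
The group theory for the trace argument (MP_f619a5_ag).
-/

namespace Pool.Agent.Helper30.TmN

/-- Bezout in a commutative group, modulo a subgroup: if two powers of `x` with relatively prime
exponents are in `P0`, then `x` is in `P0`. -/
theorem mem_of_coprime {P : Type} [CommGroup P] (P0 : Subgroup P) (m n : ℕ) (h : m.Coprime n)
    (x : P) (hm : x ^ m ∈ P0) (hn : x ^ n ∈ P0) : x ∈ P0 := by
  obtain ⟨u, v, huv⟩ := Nat.isCoprime_iff_coprime.2 h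
  have h1 : x = (x ^ m) ^ u * (x ^ n) ^ v := by
    rw [← zpow_natCast x m, ← zpow_natCast x n, ← zpow_mul, ← zpow_mul, ← zpow_add,
      show (m : ℤ) * u + (n : ℤ) * v = 1 by rw [← huv]; ring, zpow_one]
  rw [h1]
  exact P0.mul_mem (P0.zpow_mem hm u) (P0.zpow_mem hn v)

/-- The core. -/
theorem grp_core {PM PL PN : Type} [CommGroup PM] [CommGroup PL] [CommGroup PN]
    (iM : PM →* PN) (iL : PL →* PN) (TrM : PN →* PM) (TrL : PN →* PL) (e n : ℕ)
    (P0M P1M : Subgroup PM) (P0L P1L : Subgroup PL) (P0N : Subgroup PN)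
    (hTrM : ∀ y, TrM (iM y) = y ^ e) (hTrL : ∀ y, TrL (iL y) = y ^ n)
    (hM0 : ∀ x ∈ P0N, TrM x ∈ P0M) (hL0 : ∀ x ∈ P0N, TrL x ∈ P0L)
    (hiM : ∀ y ∈ P0M, iM y ∈ P0N) (hiL : ∀ y ∈ P0L, iL y ∈ P0N)
    (hdie : ∀ y ∈ P1L, TrM (iL y) ∈ P1M)
    (p a i j m : ℕ) (hp : p.Prime) (he : e = p ^ a * m) (hm : p.Coprime m) (hn : n ≠ 0)
    (hC : ∀ y : PL, y ^ p ^ (i + 1) ∈ P0L → y ^ p ^ i ∈ P0L)
    (hD : ∀ y ∈ P0L, ∃ y' ∈ P0L, y / y' ^ p ^ j ∈ P1L)
    (haj : a + i ≤ j)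
    (q : PM) (hq : q ^ p ^ j ∈ P0M) (hqL : ∃ l, iL l = iM q) :
    ∃ q', q / q' ∈ P0M ∧ q' ^ p ^ (a + i) ∈ P1M := by
  obtain ⟨l, hl⟩ := hqL
  obtain ⟨b, m2, hm2, hn2⟩ := Nat.exists_eq_pow_mul_and_not_dvd hn p hp.ne_one
  have hC' : ∀ (n : ℕ) (y : PL), y ^ p ^ (i + n) ∈ P0L → y ^ p ^ i ∈ P0L := by
    intro n
    induction n with
    | zero =>
      intro y hy
      exact hy
    | succ n ih =>
      intro y hy
      apply ih
      have h1 := hC (y ^ p ^ n) (by
        rw [← pow_mul, ← pow_add, show n + (i + 1) = i + (n + 1) by ring]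
        exact hy)
      rw [← pow_mul, ← pow_add, add_comm n i] at h1
      exact h1
  -- a prime-to-`p` multiple of `p ^ i` times `l` is in the identity component
  have h1 : (l ^ m2) ^ p ^ i ∈ P0L := by
    apply hC' (j + b)
    have h2 := hL0 _ (hiM _ hq)
    rw [map_pow iM, ← hl, ← map_pow iL, hTrL] at h2
    have h3 : (l ^ m2) ^ p ^ (i + (j + b)) = ((l ^ p ^ j) ^ n) ^ p ^ i := by
      rw [← pow_mul, ← pow_mul, ← pow_mul, hn2, pow_add, pow_add]
      congr 1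
      ring
    rw [h3]
    exact P0L.pow_mem h2 _
  obtain ⟨l', hl', h4⟩ := hD _ h1
  have ht : TrM (iL l') ∈ P0M := hM0 _ (hiL _ hl')
  obtain ⟨t, ht'⟩ : ∃ t, t = TrM (iL l') := ⟨_, rfl⟩
  rw [← ht'] at ht
  have h5 : q ^ (e * m2 * p ^ i) / t ^ p ^ j ∈ P1M := by
    have h6 := hdie _ h4
    rw [map_div, map_div, map_pow, map_pow, map_pow iL l' _, map_pow, map_pow, map_pow, ← ht',
      hl, hTrM, ← pow_mul, ← pow_mul, ← mul_assoc] at h6
    exact h6
  -- the new point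
  obtain ⟨x, hx⟩ : ∃ x : PM, x = q ^ (m * m2) / t ^ p ^ (j - (a + i)) := ⟨_, rfl⟩
  have hpj : p ^ j = p ^ (a + i) * p ^ (j - (a + i)) := by
    rw [← pow_add, Nat.add_sub_cancel' haj]
  have hx1 : x ^ p ^ (a + i) ∈ P1M := by
    have h7 : x ^ p ^ (a + i) = q ^ (e * m2 * p ^ i) / t ^ p ^ j := by
      rw [hx, div_pow, ← pow_mul, ← pow_mul]
      congr 1
      · congr 1
        rw [he, pow_add]
        ring
      · congr 1
        rw [hpj]
        ring
    rw [h7]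
    exact h5
  have hcop : (m * m2).Coprime (p ^ j) := by
    refine Nat.Coprime.pow_right j (Nat.Coprime.mul_left hm.symm ?_)
    exact ((Nat.Prime.coprime_iff_not_dvd hp).2 hm2).symm
  obtain ⟨u, v, huv⟩ := Nat.isCoprime_iff_coprime.2 hcop
  refine ⟨x ^ u, ?_, ?_⟩
  · have h8 : q / x ^ u = (t ^ p ^ (j - (a + i))) ^ u * (q ^ p ^ j) ^ v := by
      have h9 : q = q ^ ((m * m2 : ℕ) * u + (p ^ j : ℕ) * v : ℤ) := by
        rw [show ((m * m2 : ℕ) : ℤ) * u + ((p ^ j : ℕ) : ℤ) * v = 1 by rw [← huv]; ring, zpow_one]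
      rw [hx, div_zpow]
      nth_rewrite 1 [h9]
      rw [zpow_add, zpow_mul, zpow_natCast, zpow_mul, zpow_natCast]
      generalize (q ^ (m * m2)) ^ u = A
      generalize (t ^ p ^ (j - (a + i))) ^ u = B
      generalize (q ^ p ^ j) ^ v = C
      rw [div_div_eq_mul_div, mul_assoc, mul_comm A (C * B), mul_div_assoc, div_self', mul_one,
        mul_comm]
    rw [h8]
    exact P0M.mul_mem (P0M.zpow_mem (P0M.pow_mem ht _) _) (P0M.zpow_mem hq _)
  · rw [← zpow_natCast, ← zpow_mul, mul_comm, zpow_mul, zpow_natCast]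
    exact P1M.zpow_mem hx1 _

/-- Passage from the average over a finite group to the point itself. -/
theorem grp_avg {P : Type} [CommGroup P] (P0 P1 : Subgroup P) (p a j h : ℕ) (hc : h.Coprime p)
    (q Z : P) (hq : q ^ p ^ j ∈ P0) (hZ : Z / q ^ h ∈ P0)
    (hZ' : ∃ Z', Z / Z' ∈ P0 ∧ Z' ^ p ^ a ∈ P1) :
    ∃ q', q / q' ∈ P0 ∧ q' ^ p ^ a ∈ P1 := by
  obtain ⟨Z', h1, h2⟩ := hZ'
  obtain ⟨u, v, huv⟩ := Nat.isCoprime_iff_coprime.2 (Nat.Coprime.pow_right j hc)
  refine ⟨Z' ^ u, ?_, ?_⟩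
  · have h9 : q = q ^ ((h : ℕ) * u + (p ^ j : ℕ) * v : ℤ) := by
      rw [show ((h : ℕ) : ℤ) * u + ((p ^ j : ℕ) : ℤ) * v = 1 by rw [← huv]; ring, zpow_one]
    have h3 : q / Z' ^ u = (q ^ p ^ j) ^ v * ((Z / Z') ^ u / (Z / q ^ h) ^ u) := by
      nth_rewrite 1 [h9]
      rw [zpow_add, zpow_mul, zpow_natCast, zpow_mul, zpow_natCast, div_zpow, div_zpow]
      generalize (q ^ h) ^ u = A
      generalize (q ^ p ^ j) ^ v = B
      generalize Z ^ u = C
      generalize Z' ^ u = D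
      rw [div_div_div_cancel_left, mul_comm A B, mul_div_assoc]
    rw [h3]
    exact P0.mul_mem (P0.zpow_mem hq _) (P0.div_mem (P0.zpow_mem h1 _) (P0.zpow_mem hZ _))
  · rw [← zpow_natCast, ← zpow_mul, mul_comm, zpow_mul, zpow_natCast]
    exact P1.zpow_mem h2 _

/-- An automorphism of order prime to `p` which is trivial on the `p`-torsion is trivial on the
`p`-power torsion. -/
theorem triv_of_triv {P : Type} [CommGroup P] (P0 : Subgroup P) (σ : P →* P)
    (hσ0 : ∀ x ∈ P0, σ x ∈ P0) (p m : ℕ) (hm : m.Coprime p) (hσm : ∀ x, σ^[m] x = x)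
    (h1 : ∀ x, x ^ p ∈ P0 → σ x / x ∈ P0) (j : ℕ) :
    ∀ x, x ^ p ^ j ∈ P0 → σ x / x ∈ P0 := by
  induction j with
  | zero =>
    intro x hx
    rw [pow_zero, pow_one] at hx
    exact P0.div_mem (hσ0 x hx) hx
  | succ j ih =>
    intro x hx
    obtain ⟨t, ht⟩ : ∃ t, t = σ x / x := ⟨_, rfl⟩
    have h2 : t ^ p ∈ P0 := by
      have h3 := ih (x ^ p) (by rw [← pow_mul, ← pow_succ']; exact hx)
      rw [map_pow, ← div_pow, ← ht] at h3
      exact h3
    have h3 := h1 t h2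
    have h4 : ∀ i : ℕ, σ^[i] x / (x * t ^ i) ∈ P0 := by
      intro i
      induction i with
      | zero => simp
      | succ i ih2 =>
        rw [Function.iterate_succ_apply']
        have h5 := hσ0 _ ih2
        rw [map_div, map_mul, map_pow] at h5
        have h6 : σ (σ^[i] x) / (x * t ^ (i + 1)) =
            σ (σ^[i] x) / (σ x * σ t ^ i) * (σ t / t) ^ i := by
          have h7 : σ x = x * t := by rw [ht, mul_div_cancel]
          rw [h7, div_pow, pow_succ]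
          generalize σ (σ^[i] x) = A
          generalize σ t ^ i = B
          generalize t ^ i = C
          rw [div_mul_div_comm, div_eq_div_iff_mul_eq_mul]
          simp only [mul_comm, mul_left_comm]
        rw [h6]
        exact P0.mul_mem h5 (P0.pow_mem h3 i)
    have h5 := h4 m
    rw [hσm] at h5
    have h6 : t ^ m ∈ P0 := by
      have h7 : x / (x * t ^ m) = (t ^ m)⁻¹ := by
        rw [div_mul_eq_div_div, div_self', one_div]
      rw [h7] at h5
      exact (P0.inv_mem_iff).1 h5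
    rw [← ht]
    exact mem_of_coprime P0 m p hm t h6 h2

/-- If `p ^ a` kills suitable representatives of the `p`-power torsion modulo `P0`, and the
`p`-torsion consists of `p ^ (a - 1)`-th powers modulo `P0`, then representatives of the same order
exist. -/
theorem grp_free {P : Type} [CommGroup P] (P0 P1 : Subgroup P) (p a : ℕ)
    (hP : ∀ (j : ℕ) (x : P), x ^ p ^ j ∈ P0 → ∃ x', x / x' ∈ P0 ∧ x' ^ p ^ a ∈ P1)
    (hF : ∀ x : P, x ^ p ∈ P0 → ∃ y, x / y ^ p ^ (a - 1) ∈ P0) (j : ℕ) (x : P)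
    (hx : x ^ p ^ j ∈ P0) : ∃ x', x / x' ∈ P0 ∧ x' ^ p ^ j ∈ P1 := by
  rcases Nat.eq_zero_or_pos j with rfl | hj0
  · refine ⟨1, ?_, ?_⟩
    · rw [div_one]
      rw [pow_zero, pow_one] at hx
      exact hx
    · rw [one_pow]
      exact P1.one_mem
  by_cases hja : a ≤ j
  · obtain ⟨x', h1, h2⟩ := hP j x hx
    refine ⟨x', h1, ?_⟩
    obtain ⟨c, rfl⟩ := Nat.exists_eq_add_of_le hja
    rw [pow_add, pow_mul]
    exact P1.pow_mem h2 _
  · push Not at hja
    -- elements of order dividing `p ^ i` are `p ^ (a - i)`-th powers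
    have h3 : ∀ i : ℕ, i ≤ a → ∀ x : P, x ^ p ^ i ∈ P0 → ∃ y, x / y ^ p ^ (a - i) ∈ P0 := by
      intro i
      induction i with
      | zero =>
        intro _ x hx
        rw [pow_zero, pow_one] at hx
        exact ⟨1, by rw [one_pow, div_one]; exact hx⟩
      | succ i ih =>
        intro hi x hx
        obtain ⟨y, hy⟩ := hF (x ^ p ^ i) (by rw [← pow_mul, ← pow_succ]; exact hx)
        have hy2 : (x / y ^ p ^ (a - (i + 1))) ^ p ^ i ∈ P0 := by
          rw [div_pow, ← pow_mul, ← pow_add, show a - (i + 1) + i = a - 1 by omega]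
          exact hy
        obtain ⟨z, hz⟩ := ih (by omega) _ hy2
        refine ⟨y * z ^ p, ?_⟩
        rw [mul_pow, ← pow_mul, ← pow_succ', show a - (i + 1) + 1 = a - i by omega,
          ← div_div]
        exact hz
    obtain ⟨y, hy⟩ := h3 j hja.le x hx
    have hy1 : y ^ p ^ a ∈ P0 := by
      have h4 : y ^ p ^ a = x ^ p ^ j / (x / y ^ p ^ (a - j)) ^ p ^ j := by
        rw [div_pow, div_div_cancel, ← pow_mul, ← pow_add, Nat.sub_add_cancel hja.le]
      rw [h4]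
      exact P0.div_mem hx (P0.pow_mem hy _)
    obtain ⟨y', h5, h6⟩ := hP a y hy1
    refine ⟨y' ^ p ^ (a - j), ?_, ?_⟩
    · have h7 : x / y' ^ p ^ (a - j) = x / y ^ p ^ (a - j) * (y / y') ^ p ^ (a - j) := by
        rw [div_pow, div_mul_div_cancel]
      rw [h7]
      exact P0.mul_mem hy (P0.pow_mem h5 _)
    · rw [← pow_mul, ← pow_add, Nat.sub_add_cancel hja.le]
      exact h6

end Pool.Agent.Helper30.TmN
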