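import Pool.Agent.Helper50.Tm.Main
import Pool.Agent.Helper50.Tm.Goals2
import Pool.Agent.Helper30.TmN.Grp

/-!
The trace argument for the points of a Neron model (MP_f619a5_ag).
-/

open CategoryTheory AlgebraicGeometry Limits TensorProduct MonoidalCategory
open scoped Obj

namespace Pool.Agent.Helper30.TmN

open Pool.Agent.Helper40.Nm (specOver homGroup specialFibre)
open Pool.Agent.Helper50.Tm

section red

variable {K R M : Type} [Field K] [CommRing R] [IsDomain R] [IsDiscreteValuationRing R]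
  [IsAdicComplete (IsLocalRing.maximalIdeal R) R] [IsAlgClosed (IsLocalRing.ResidueField R)]
  [Field M] [Algebra K M] [Algebra R M] {X : Over (Spec (CommRingCat.of K))} [GrpObj X]

theorem P1_le_P0 (hCO : COMPG) (hRE : REDS) (𝒢 : NeronModel K R M X) : P1 𝒢 ≤ P0 hCO 𝒢 := by
  intro x hx
  rw [mem_P1] at hx
  have h1 : redk (1 : Pts 𝒢.G R) = 1 := map_one (redHom 𝒢.G)
  have h2 := ((hRE R 𝒢.G 𝒢.smooth).2.1 1 1).1 (SameComp.refl _)
  rw [h1] at h2
  rw [mem_P0, (hRE R 𝒢.G 𝒢.smooth).2.1, hx, h1]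
  exact h2

theorem mem_P0_iff (hCO : COMPG) (hRE : REDS) (𝒢 : NeronModel K R M X) (x : Pts X M) :
    x ∈ P0 hCO 𝒢 ↔ SameCompk 1 (redk (sec 𝒢 x)) := by
  rw [mem_P0, (hRE R 𝒢.G 𝒢.smooth).2.1]
  have : redk (1 : Pts 𝒢.G R) = 1 := map_one (redHom 𝒢.G)
  rw [this]

theorem redk_pow (𝒢 : NeronModel K R M X) (x : Pts X M) (n : ℕ) :
    redk (sec 𝒢 (x ^ n)) = redk (sec 𝒢 x) ^ n := by
  rw [map_pow, ← redHom_apply, map_pow, redHom_apply]

theorem redk_div (𝒢 : NeronModel K R M X) (x y : Pts X M) :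
    x / y ∈ P1 𝒢 ↔ redk (sec 𝒢 x) = redk (sec 𝒢 y) := by
  rw [mem_P1, map_div, ← redHom_apply, map_div, div_eq_one, redHom_apply, redHom_apply]

/-- divisibility of the identity component, in terms of points -/
theorem div_pts (hCO : COMPG) (hRE : REDS) (𝒢 : NeronModel K R M X) (p : ℕ)
    (hD : ∀ b : Pts 𝒢.G (IsLocalRing.ResidueField R), SameCompk 1 b →
      ∃ b' : Pts 𝒢.G (IsLocalRing.ResidueField R), SameCompk 1 b' ∧ b' ^ p = b)
    (j : ℕ) (x : Pts X M) (hx : x ∈ P0 hCO 𝒢) : ∃ x' ∈ P0 hCO 𝒢, x / x' ^ p ^ j ∈ P1 𝒢 := by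
  have hDj : ∀ (j : ℕ) (b : Pts 𝒢.G (IsLocalRing.ResidueField R)), SameCompk 1 b →
      ∃ b' : Pts 𝒢.G (IsLocalRing.ResidueField R), SameCompk 1 b' ∧ b' ^ p ^ j = b := by
    intro j
    induction j with
    | zero =>
      intro b hb
      exact ⟨b, hb, by simp⟩
    | succ j ih =>
      intro b hb
      obtain ⟨b1, hb1, h1⟩ := ih b hb
      obtain ⟨b2, hb2, h2⟩ := hD b1 hb1
      exact ⟨b2, hb2, by rw [pow_succ', pow_mul, h2, h1]⟩
  rw [mem_P0_iff hCO hRE] at hx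
  obtain ⟨b', hb', h1⟩ := hDj j _ hx
  obtain ⟨s', hs'⟩ := (hRE R 𝒢.G 𝒢.smooth).1 b'
  refine ⟨(sec 𝒢).symm s', ?_, ?_⟩
  · rw [mem_P0_iff hCO hRE, MulEquiv.apply_symm_apply, hs']
    exact hb'
  · rw [redk_div, redk_pow, MulEquiv.apply_symm_apply, hs', h1]

end red

section core

variable {K N : Type} [Field K] [Field N] [Algebra K N] [FiniteDimensional K N] [IsGalois K N]
  {L M : IntermediateField K N}
  {RL RM RN : Type}
  [CommRing RL] [IsDomain RL] [IsDiscreteValuationRing RL] [Algebra RL L]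
  [CommRing RM] [IsDomain RM] [IsDiscreteValuationRing RM] [Algebra RM M]
  [CommRing RN] [IsDomain RN] [IsDiscreteValuationRing RN] [Algebra RN N]
  [Algebra RL RN] [Algebra RM RN] [Algebra RL N] [Algebra RM N]
  [IsScalarTower RL L N] [IsScalarTower RL RN N] [IsScalarTower RM M N] [IsScalarTower RM RN N]
  {X : Over (Spec (CommRingCat.of K))} [GrpObj X] [IsCommMonObj X]

omit [GrpObj X] [IsCommMonObj X] [IsGalois K N] in
theorem map_aut_toAlgHom (M : IntermediateField K N) (γ : N ≃ₐ[M] N) (y : Pts X M) :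
    (y.map (IsScalarTower.toAlgHom K M N)).map ((γ : N →ₐ[M] N).restrictScalars K) =
      y.map (IsScalarTower.toAlgHom K M N) := by
  refine map_toAlgHom_fixed M (γ.restrictScalars K) ?_ y
  rw [IntermediateField.mem_fixingSubgroup_iff]
  intro a ha
  exact γ.commutes ⟨a, ha⟩

/-- the trace of a point of the smaller field is a multiple of it -/
theorem tr_toAlgHom (M : IntermediateField K N) (Tr : Pts X N →* Pts X M)
    (hTr : ∀ x y, IsTr x y ↔ Tr x = y) (y : Pts X M) :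
    Tr (y.map (IsScalarTower.toAlgHom K M N)) = y ^ Module.finrank M N := by
  refine (hTr _ _).1 ?_
  have hcard : Fintype.card (N ≃ₐ[M] N) = Module.finrank M N := by
    rw [← Nat.card_eq_fintype_card]
    exact IsGalois.card_aut_eq_finrank M N
  change Pts.mapHom (IsScalarTower.toAlgHom K M N) (y ^ Module.finrank M N) = _
  rw [map_pow]
  simp only [map_aut_toAlgHom, Finset.prod_const, Finset.card_univ, hcard]
  rfl

/-- the points of `X` over `M` which come from `L` -/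
theorem core_L (hCO : COMPG) (hRE : REDS) (hTX : TREX) (hTR1 : TR1) (hTR2 : TR2)
    (hBR : BASER) (hBC : BASEC)
    [IsAdicComplete (IsLocalRing.maximalIdeal RL) RL] [IsAlgClosed (IsLocalRing.ResidueField RL)]
    [IsAdicComplete (IsLocalRing.maximalIdeal RM) RM] [IsAlgClosed (IsLocalRing.ResidueField RM)]
    [IsAdicComplete (IsLocalRing.maximalIdeal RN) RN] [IsAlgClosed (IsLocalRing.ResidueField RN)]
    [Module.Finite RL RN] [Module.Free RL RN] [IsLocalHom (algebraMap RL RN)]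
    [Module.Finite RM RN] [Module.Free RM RN] [IsLocalHom (algebraMap RM RN)]
    (𝒢L : NeronModel K RL L X) (𝒢M : NeronModel K RM M X) (𝒢N : NeronModel K RN N X)
    (hresL : ∀ s : RN, ∃ r : RL, s - algebraMap RL RN r ∈ IsLocalRing.maximalIdeal RN)
    (hnilL : ∃ n : ℕ, IsLocalRing.maximalIdeal RN ^ n ≤
      (IsLocalRing.maximalIdeal RL).map (algebraMap RL RN))
    (hresM : ∀ s : RN, ∃ r : RM, s - algebraMap RM RN r ∈ IsLocalRing.maximalIdeal RN)
    (hnilM : ∃ n : ℕ, IsLocalRing.maximalIdeal RN ^ n ≤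
      (IsLocalRing.maximalIdeal RM).map (algebraMap RM RN))
    (hle : (IsLocalRing.maximalIdeal RL).map (algebraMap RL RN) ≤
      (IsLocalRing.maximalIdeal RM).map (algebraMap RM RN))
    (p a i m : ℕ) (hp : p.Prime) (he : Module.finrank M N = p ^ a * m) (hm : p.Coprime m)
    (hD : ∀ b : Pts 𝒢L.G (IsLocalRing.ResidueField RL), SameCompk 1 b →
      ∃ b' : Pts 𝒢L.G (IsLocalRing.ResidueField RL), SameCompk 1 b' ∧ b' ^ p = b)
    (hC : ∀ b : Pts 𝒢L.G (IsLocalRing.ResidueField RL), SameCompk 1 (b ^ p ^ (i + 1)) →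
      SameCompk 1 (b ^ p ^ i))
    (j : ℕ) (haj : a + i ≤ j) (x : Pts X M) (hx : x ^ p ^ j ∈ P0 hCO 𝒢M)
    (hxL : ∃ l : Pts X L, l.map (IsScalarTower.toAlgHom K L N) =
      x.map (IsScalarTower.toAlgHom K M N)) :
    ∃ x', x / x' ∈ P0 hCO 𝒢M ∧ x' ^ p ^ (a + i) ∈ P1 𝒢M := by
  obtain ⟨-, -, TrM, hTrM⟩ := hTX K M N X
  obtain ⟨-, -, TrL, hTrL⟩ := hTX K L N X
  refine grp_core (Pts.mapHom (IsScalarTower.toAlgHom K M N))
    (Pts.mapHom (IsScalarTower.toAlgHom K L N)) TrM TrL (Module.finrank M N)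
    (Module.finrank L N) (P0 hCO 𝒢M) (P1 𝒢M) (P0 hCO 𝒢L) (P1 𝒢L) (P0 hCO 𝒢N)
    (fun y => tr_toAlgHom M TrM hTrM y) (fun y => tr_toAlgHom L TrL hTrL y)
    (fun z hz => hTR1 K RM M RN N X 𝒢M 𝒢N hresM hnilM z _ ((hTrM z _).2 rfl) hz)
    (fun z hz => hTR1 K RL L RN N X 𝒢L 𝒢N hresL hnilL z _ ((hTrL z _).2 rfl) hz)
    (fun y hy => hBC K RM M RN N X 𝒢M 𝒢N hresM y hy)
    (fun y hy => hBC K RL L RN N X 𝒢L 𝒢N hresL y hy) ?_ p a i j m hp he hm
    Module.finrank_pos.ne' ?_ (div_pts hCO hRE 𝒢L p hD j) haj x hx hxL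
  · intro y hy
    have h2 := hBR K RL L RN N X 𝒢L 𝒢N y hy
    refine hTR2 K RM M RN N X 𝒢M 𝒢N _ _ ((hTrM _ _).2 rfl) ?_
    have h3 : Ideal.Quotient.mkₐ RN ((IsLocalRing.maximalIdeal RM).map (algebraMap RM RN)) =
        (Ideal.Quotient.factorₐ RN hle).comp
          (Ideal.Quotient.mkₐ RN ((IsLocalRing.maximalIdeal RL).map (algebraMap RL RN))) := by
      apply AlgHom.ext
      intro a
      rfl
    rw [h3, Pts.map_comp]
    change Pts.map _ ((sec 𝒢N (y.map (IsScalarTower.toAlgHom K L N))).map _) = 1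
    rw [h2, Pts.map_one]
  · intro y hy
    rw [mem_P0_iff hCO hRE, redk_pow] at hy
    rw [mem_P0_iff hCO hRE, redk_pow]
    exact hC _ hy

end core

end Pool.Agent.Helper30.TmN
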