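import Pool.Agent.Helper50.Tm.Defs

/-!
Conditions on the special fibre of a Neron model (MP_f619a5_ag).
-/

open CategoryTheory AlgebraicGeometry

namespace Pool.Agent.Helper30.TmN

open Pool.Agent.Helper50.Tm

variable {R : Type} [CommRing R] [IsLocalRing R]

/-- The group of rational points of the identity component of the special fibre of `G` is
`q`-divisible. -/
def IdDivisible (G : Over (Spec (CommRingCat.of R))) [GrpObj G] (q : ℕ) : Prop :=
  ∀ b : Pts G (IsLocalRing.ResidueField R), SameCompk 1 b →
    ∃ b' : Pts G (IsLocalRing.ResidueField R), SameCompk 1 b' ∧ b' ^ q = b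

/-- `q ^ i` kills the `q`-power torsion of the group of components of the special fibre of `G`. -/
def TorsionKilled (G : Over (Spec (CommRingCat.of R))) [GrpObj G] (q i : ℕ) : Prop :=
  ∀ (b : Pts G (IsLocalRing.ResidueField R)) (n : ℕ), SameCompk 1 (b ^ q ^ n) →
    SameCompk 1 (b ^ q ^ i)

/-- The group of components of the special fibre of `G` has at most `r` elements of order
dividing `q`. -/
def TorsionCard (G : Over (Spec (CommRingCat.of R))) [GrpObj G] (q r : ℕ) : Prop :=
  ∃ F : Finset (Pts G (IsLocalRing.ResidueField R)), F.card ≤ r ∧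
    ∀ z : Pts G (IsLocalRing.ResidueField R), SameCompk 1 (z ^ q) → ∃ b ∈ F, SameCompk b z

/-- Every element of order dividing `q` of the group of components of the special fibre of `G`
is an `n`-th power. -/
def TorsionPow (G : Over (Spec (CommRingCat.of R))) [GrpObj G] (q n : ℕ) : Prop :=
  ∀ z : Pts G (IsLocalRing.ResidueField R), SameCompk 1 (z ^ q) →
    ∃ y : Pts G (IsLocalRing.ResidueField R), SameCompk z (y ^ n)

end Pool.Agent.Helper30.TmN
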